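import Pool.Agent.H676.GI.Ub.T

set_option autoImplicit false

/-! # The graph is a unit ball graph in three-space -/

namespace Pool.Agent.H676.GI.Ub

open Finset Filter Topology

/-- The graph is the intersection graph of balls of diameter one in `d`-space: two different
vertices are adjacent if and only if their centres have distance at most one. -/
def UnitBall {V : Type} (d : ℕ) (G : SimpleGraph V) : Prop :=
  ∃ c : V → EuclideanSpace ℝ (Fin d), ∀ u v, G.Adj u v ↔ u ≠ v ∧ dist (c u) (c v) ≤ 1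

theorem UnitBall.comap {V W : Type} {d : ℕ} {G : SimpleGraph W} (h : UnitBall d G) (e : V ≃ W) :
    UnitBall d (G.comap e) := by
  obtain ⟨c, hc⟩ := h
  refine ⟨fun v => c (e v), fun u v => ?_⟩
  change G.Adj (e u) (e v) ↔ _
  rw [hc, e.injective.ne_iff]

/-- coordinates: position transversal to the axis, weight, and position of the cluster -/
structure Pos where
  /-- first transversal coordinate -/
  x : ℝ
  /-- second transversal coordinate -/
  y : ℝ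
  /-- weight -/
  k : ℝ
  /-- cluster -/
  t : ℝ

/-- the point for the scale `δ` -/
noncomputable def Pos.pt (P : Pos) (δ : ℝ) : EuclideanSpace ℝ (Fin 3) :=
  !₂[δ * P.x, δ * P.y, P.t + δ ^ 2 * P.k]

theorem dist_pt (P Q : Pos) (δ : ℝ) : dist (P.pt δ) (Q.pt δ) ≤ 1 ↔
    δ ^ 2 * ((P.x - Q.x) ^ 2 + (P.y - Q.y) ^ 2) + (P.t - Q.t + δ ^ 2 * (P.k - Q.k)) ^ 2 ≤ 1 := by
  rw [EuclideanSpace.dist_eq, Real.sqrt_le_one]
  unfold Pos.pt
  rw [Fin.sum_univ_three]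
  simp only [Real.dist_eq, sq_abs]
  simp only [Matrix.cons_val_zero, Matrix.cons_val_one, Matrix.cons_val]
  have e : (δ * P.x - δ * Q.x) ^ 2 + (δ * P.y - δ * Q.y) ^ 2 +
      (P.t + δ ^ 2 * P.k - (Q.t + δ ^ 2 * Q.k)) ^ 2 =
    δ ^ 2 * ((P.x - Q.x) ^ 2 + (P.y - Q.y) ^ 2) +
      (P.t - Q.t + δ ^ 2 * (P.k - Q.k)) ^ 2 := by ring
  rw [e]

theorem ev_same (P Q : Pos) (h : P.t = Q.t) :
    ∀ᶠ δ in 𝓝[>] (0 : ℝ), dist (P.pt δ) (Q.pt δ) ≤ 1 := by
  have h1 : Tendsto (fun δ : ℝ => δ ^ 2 * ((P.x - Q.x) ^ 2 + (P.y - Q.y) ^ 2) +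
      (P.t - Q.t + δ ^ 2 * (P.k - Q.k)) ^ 2) (𝓝[>] 0) (𝓝 0) := by
    have h2 : Continuous (fun δ : ℝ => δ ^ 2 * ((P.x - Q.x) ^ 2 + (P.y - Q.y) ^ 2) +
      (P.t - Q.t + δ ^ 2 * (P.k - Q.k)) ^ 2) := by fun_prop
    have h3 := (h2.tendsto 0).mono_left (nhdsWithin_le_nhds (s := Set.Ioi (0 : ℝ)))
    simpa [h] using h3
  filter_upwards [h1.eventually_lt_const one_pos] with δ hδ
  rw [dist_pt]
  exact hδ.le

theorem ev_far (P Q : Pos) (h : P.t - Q.t = 2) :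
    ∀ᶠ δ in 𝓝[>] (0 : ℝ), ¬ dist (P.pt δ) (Q.pt δ) ≤ 1 := by
  have h1 : Tendsto (fun δ : ℝ => δ ^ 2 * ((P.x - Q.x) ^ 2 + (P.y - Q.y) ^ 2) +
      (P.t - Q.t + δ ^ 2 * (P.k - Q.k)) ^ 2) (𝓝[>] 0) (𝓝 4) := by
    have h2 : Continuous (fun δ : ℝ => δ ^ 2 * ((P.x - Q.x) ^ 2 + (P.y - Q.y) ^ 2) +
      (P.t - Q.t + δ ^ 2 * (P.k - Q.k)) ^ 2) := by fun_prop
    have h3 := (h2.tendsto 0).mono_left (nhdsWithin_le_nhds (s := Set.Ioi (0 : ℝ)))
    rw [h] at h3
    norm_num at h3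
    rw [h]
    exact h3
  filter_upwards [h1.eventually_const_lt (by norm_num : (1 : ℝ) < 4)] with δ hδ
  rw [dist_pt]
  exact not_le.2 hδ

theorem ev_one (P Q : Pos) (h : P.t - Q.t = 1)
    (h0 : (P.x - Q.x) ^ 2 + (P.y - Q.y) ^ 2 + 2 * (P.k - Q.k) ≠ 0) :
    ∀ᶠ δ in 𝓝[>] (0 : ℝ), (dist (P.pt δ) (Q.pt δ) ≤ 1 ↔
      (P.x - Q.x) ^ 2 + (P.y - Q.y) ^ 2 + 2 * (P.k - Q.k) < 0) := by
  obtain ⟨s, hs⟩ : ∃ s, s = (P.x - Q.x) ^ 2 + (P.y - Q.y) ^ 2 + 2 * (P.k - Q.k) := ⟨_, rfl⟩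
  rw [← hs] at h0 ⊢
  have h1 : Tendsto (fun δ : ℝ => s + δ ^ 2 * (P.k - Q.k) ^ 2) (𝓝[>] 0) (𝓝 s) := by
    have h2 : Continuous (fun δ : ℝ => s + δ ^ 2 * (P.k - Q.k) ^ 2) := by fun_prop
    have h3 := (h2.tendsto 0).mono_left (nhdsWithin_le_nhds (s := Set.Ioi (0 : ℝ)))
    simpa using h3
  have h4 : ∀ δ : ℝ, 0 < δ → (dist (P.pt δ) (Q.pt δ) ≤ 1 ↔ s + δ ^ 2 * (P.k - Q.k) ^ 2 ≤ 0) := by
    intro δ hδ
    rw [dist_pt, h]
    have e : δ ^ 2 * ((P.x - Q.x) ^ 2 + (P.y - Q.y) ^ 2) + (1 + δ ^ 2 * (P.k - Q.k)) ^ 2 =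
        1 + δ ^ 2 * (s + δ ^ 2 * (P.k - Q.k) ^ 2) := by
      rw [hs]
      ring
    rw [e]
    have h5 : 0 < δ ^ 2 := by positivity
    constructor
    · intro h6
      by_contra hcon
      push Not at hcon
      have := mul_pos h5 hcon
      linarith
    · intro h6
      have := mul_nonneg h5.le (neg_nonneg.2 h6)
      linarith
  rcases lt_or_gt_of_ne h0 with h5 | h5
  · filter_upwards [h1.eventually_lt_const h5, self_mem_nhdsWithin] with δ hδ hδ0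
    rw [h4 δ hδ0]
    exact ⟨fun _ => h5, fun _ => hδ.le⟩
  · filter_upwards [h1.eventually_const_lt h5, self_mem_nhdsWithin] with δ hδ hδ0
    rw [h4 δ hδ0]
    exact ⟨fun h6 => absurd h6 (not_le.2 hδ), fun h6 => absurd h6 (not_lt.2 h5.le)⟩

section

variable {V : Type} [Fintype V] (G : SimpleGraph V)

/-- number of a vertex -/
noncomputable def nL (u : V) : ℝ := ((Fintype.equivFin V u : ℕ) : ℝ)

/-- number of a pair -/
noncomputable def nR (p : V × V × Fin 3) : ℝ := ((Fintype.equivFin (V × V × Fin 3) p : ℕ) : ℝ)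

open Classical in
/-- the positions -/
noncomputable def pos : TV V → Pos
  | .inl u => ⟨2 * nL u, 0, nL u ^ 2 + 1 / 2, -1⟩
  | .inr (.inl z) => if sinc G z.1 z.2 then ⟨nL z.1, nR z.2, (nL z.1 ^ 2 - nR z.2 ^ 2) / 2, 0⟩
      else ⟨-10, -10, 0, 0⟩
  | .inr (.inr p) => ⟨0, 2 * nR p, - (nR p ^ 2 + 1 / 2), 1⟩

theorem nL_inj (u v : V) (h : nL u = nL v) : u = v := by
  unfold nL at h
  exact (Fintype.equivFin V).injective (Fin.ext (Nat.cast_injective h))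

theorem nR_inj (u v : V × V × Fin 3) (h : nR u = nR v) : u = v := by
  unfold nR at h
  exact (Fintype.equivFin (V × V × Fin 3)).injective (Fin.ext (Nat.cast_injective h))

/-- integers -/
theorem int_sq (m n : ℕ) : (((m : ℝ) - n) ^ 2 = 0 ∧ (m : ℝ) = n) ∨ 1 ≤ ((m : ℝ) - n) ^ 2 := by
  rcases lt_trichotomy m n with h | h | h
  · right
    have : (m : ℝ) + 1 ≤ n := by exact_mod_cast h
    nlinarith
  · left
    rw [h]
    simp
  · right
    have : (n : ℝ) + 1 ≤ m := by exact_mod_cast h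
    nlinarith

theorem ev_LD (u : V) (z : V × (V × V × Fin 3)) : ∀ᶠ δ in 𝓝[>] (0 : ℝ),
    (dist ((pos G (.inr (.inl z))).pt δ) ((pos G (.inl u)).pt δ) ≤ 1 ↔
      (u = z.1 ∧ sinc G z.1 z.2)) := by
  by_cases hz : sinc G z.1 z.2
  · have hp : pos G (.inr (.inl z)) = ⟨nL z.1, nR z.2, (nL z.1 ^ 2 - nR z.2 ^ 2) / 2, 0⟩ := if_pos hz
    have hq : pos G (.inl u) = ⟨2 * nL u, 0, nL u ^ 2 + 1 / 2, -1⟩ := rfl
    rw [hp, hq]
    have e : (nL z.1 - 2 * nL u) ^ 2 + (nR z.2 - 0) ^ 2 +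
        2 * ((nL z.1 ^ 2 - nR z.2 ^ 2) / 2 - (nL u ^ 2 + 1 / 2)) =
        2 * (nL z.1 - nL u) ^ 2 - 1 := by ring
    rcases int_sq (Fintype.equivFin V z.1) (Fintype.equivFin V u) with h | h
    · filter_upwards [ev_one ⟨nL z.1, nR z.2, (nL z.1 ^ 2 - nR z.2 ^ 2) / 2, 0⟩
        ⟨2 * nL u, 0, nL u ^ 2 + 1 / 2, -1⟩ (by norm_num) (by
          simp only
          rw [e]
          change 2 * (((Fintype.equivFin V z.1 : ℕ) : ℝ) - (Fintype.equivFin V u : ℕ)) ^ 2 - 1 ≠ 0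
          rw [h.1]
          norm_num)] with δ hδ
      rw [hδ]
      rw [e]
      constructor
      · intro _
        exact ⟨(nL_inj _ _ h.2).symm, hz⟩
      · intro _
        change 2 * (((Fintype.equivFin V z.1 : ℕ) : ℝ) - (Fintype.equivFin V u : ℕ)) ^ 2 - 1 < 0
        rw [h.1]
        norm_num
    · filter_upwards [ev_one ⟨nL z.1, nR z.2, (nL z.1 ^ 2 - nR z.2 ^ 2) / 2, 0⟩
        ⟨2 * nL u, 0, nL u ^ 2 + 1 / 2, -1⟩ (by norm_num) (by
          simp only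
          rw [e]
          change 2 * (((Fintype.equivFin V z.1 : ℕ) : ℝ) - (Fintype.equivFin V u : ℕ)) ^ 2 - 1 ≠ 0
          linarith)] with δ hδ
      rw [hδ]
      rw [e]
      constructor
      · intro h'
        exfalso
        change 2 * (((Fintype.equivFin V z.1 : ℕ) : ℝ) - (Fintype.equivFin V u : ℕ)) ^ 2 - 1 < 0
          at h'
        linarith
      · rintro ⟨h', -⟩
        exfalso
        rw [h', sub_self] at h
        norm_num at h
  · have hp : pos G (.inr (.inl z)) = ⟨-10, -10, 0, 0⟩ := if_neg hz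
    have hq : pos G (.inl u) = ⟨2 * nL u, 0, nL u ^ 2 + 1 / 2, -1⟩ := rfl
    rw [hp, hq]
    have hu : 0 ≤ nL u := Nat.cast_nonneg _
    have e : 0 < (-10 - 2 * nL u) ^ 2 + (-10 - 0) ^ 2 + 2 * (0 - (nL u ^ 2 + 1 / 2)) := by
      nlinarith
    filter_upwards [ev_one ⟨-10, -10, 0, 0⟩ ⟨2 * nL u, 0, nL u ^ 2 + 1 / 2, -1⟩ (by norm_num)
      e.ne'] with δ hδ
    rw [hδ]
    constructor
    · intro h'
      linarith
    · rintro ⟨-, h'⟩
      exact absurd h' hz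

theorem ev_RD (p : V × V × Fin 3) (z : V × (V × V × Fin 3)) : ∀ᶠ δ in 𝓝[>] (0 : ℝ),
    (dist ((pos G (.inr (.inr p))).pt δ) ((pos G (.inr (.inl z))).pt δ) ≤ 1 ↔
      (p = z.2 ∧ sinc G z.1 z.2)) := by
  by_cases hz : sinc G z.1 z.2
  · have hp : pos G (.inr (.inl z)) = ⟨nL z.1, nR z.2, (nL z.1 ^ 2 - nR z.2 ^ 2) / 2, 0⟩ := if_pos hz
    have hq : pos G (.inr (.inr p)) = ⟨0, 2 * nR p, - (nR p ^ 2 + 1 / 2), 1⟩ := rfl
    rw [hp, hq]
    have e : (0 - nL z.1) ^ 2 + (2 * nR p - nR z.2) ^ 2 +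
        2 * (- (nR p ^ 2 + 1 / 2) - (nL z.1 ^ 2 - nR z.2 ^ 2) / 2) =
        2 * (nR z.2 - nR p) ^ 2 - 1 := by ring
    rcases int_sq (Fintype.equivFin (V × V × Fin 3) z.2) (Fintype.equivFin (V × V × Fin 3) p)
      with h | h
    · filter_upwards [ev_one ⟨0, 2 * nR p, - (nR p ^ 2 + 1 / 2), 1⟩
        ⟨nL z.1, nR z.2, (nL z.1 ^ 2 - nR z.2 ^ 2) / 2, 0⟩ (by norm_num) (by
          simp only
          rw [e]
          change 2 * (((Fintype.equivFin (V × V × Fin 3) z.2 : ℕ) : ℝ) -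
            (Fintype.equivFin (V × V × Fin 3) p : ℕ)) ^ 2 - 1 ≠ 0
          rw [h.1]
          norm_num)] with δ hδ
      rw [hδ]
      rw [e]
      constructor
      · intro _
        exact ⟨(nR_inj _ _ h.2).symm, hz⟩
      · intro _
        change 2 * (((Fintype.equivFin (V × V × Fin 3) z.2 : ℕ) : ℝ) -
            (Fintype.equivFin (V × V × Fin 3) p : ℕ)) ^ 2 - 1 < 0
        rw [h.1]
        norm_num
    · filter_upwards [ev_one ⟨0, 2 * nR p, - (nR p ^ 2 + 1 / 2), 1⟩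
        ⟨nL z.1, nR z.2, (nL z.1 ^ 2 - nR z.2 ^ 2) / 2, 0⟩ (by norm_num) (by
          simp only
          rw [e]
          change 2 * (((Fintype.equivFin (V × V × Fin 3) z.2 : ℕ) : ℝ) -
            (Fintype.equivFin (V × V × Fin 3) p : ℕ)) ^ 2 - 1 ≠ 0
          linarith)] with δ hδ
      rw [hδ]
      rw [e]
      constructor
      · intro h'
        exfalso
        change 2 * (((Fintype.equivFin (V × V × Fin 3) z.2 : ℕ) : ℝ) -
            (Fintype.equivFin (V × V × Fin 3) p : ℕ)) ^ 2 - 1 < 0 at h'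
        linarith
      · rintro ⟨h', -⟩
        exfalso
        rw [h', sub_self] at h
        norm_num at h
  · have hp : pos G (.inr (.inl z)) = ⟨-10, -10, 0, 0⟩ := if_neg hz
    have hq : pos G (.inr (.inr p)) = ⟨0, 2 * nR p, - (nR p ^ 2 + 1 / 2), 1⟩ := rfl
    rw [hp, hq]
    have hu : 0 ≤ nR p := Nat.cast_nonneg _
    have e : 0 < (0 - (-10 : ℝ)) ^ 2 + (2 * nR p - (-10)) ^ 2 +
        2 * (- (nR p ^ 2 + 1 / 2) - 0) := by
      nlinarith
    filter_upwards [ev_one ⟨0, 2 * nR p, - (nR p ^ 2 + 1 / 2), 1⟩ ⟨-10, -10, 0, 0⟩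
      (by norm_num) e.ne'] with δ hδ
    rw [hδ]
    constructor
    · intro h'
      linarith
    · rintro ⟨-, h'⟩
      exact absurd h' hz

theorem pos_t : ∀ v : TV V, (pos G v).t = match v with
    | .inl _ => -1
    | .inr (.inl _) => 0
    | .inr (.inr _) => 1 := by
  intro v
  rcases v with v | v | v
  · rfl
  · classical
    by_cases h : sinc G v.1 v.2
    · have hp : pos G (.inr (.inl v)) = ⟨nL v.1, nR v.2, (nL v.1 ^ 2 - nR v.2 ^ 2) / 2, 0⟩ :=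
        if_pos h
      rw [hp]
    · have hp : pos G (.inr (.inl v)) = ⟨-10, -10, 0, 0⟩ := if_neg h
      rw [hp]
  · rfl

/-- **The representation.** -/
theorem unitBall_tg : UnitBall 3 (tg G) := by
  have key : ∀ u v : TV V, ∀ᶠ δ in 𝓝[>] (0 : ℝ), ((tg G).Adj u v ↔
      u ≠ v ∧ dist ((pos G u).pt δ) ((pos G v).pt δ) ≤ 1) := by
    intro u v
    rcases u with u | u | u <;> rcases v with v | v | v
    · filter_upwards [ev_same (pos G (.inl u)) (pos G (.inl v)) rfl] with δ hδ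
      change u ≠ v ↔ _
      simp [hδ]
    · filter_upwards [ev_LD G u v] with δ hδ
      rw [dist_comm, hδ]
      change (u = v.1 ∧ sinc G v.1 v.2) ↔ _
      simp
    · filter_upwards [ev_far (pos G (.inr (.inr v))) (pos G (.inl u)) (by
        rw [pos_t, pos_t]; norm_num)] with δ hδ
      rw [dist_comm]
      change False ↔ _
      simp [hδ]
    · filter_upwards [ev_LD G v u] with δ hδ
      rw [hδ]
      change (v = u.1 ∧ sinc G u.1 u.2) ↔ _
      simp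
    · filter_upwards [ev_same (pos G (.inr (.inl u))) (pos G (.inr (.inl v))) (by
        rw [pos_t, pos_t])] with δ hδ
      change u ≠ v ↔ _
      simp [hδ]
    · filter_upwards [ev_RD G v u] with δ hδ
      rw [dist_comm, hδ]
      change (v = u.2 ∧ sinc G u.1 u.2) ↔ _
      simp
    · filter_upwards [ev_far (pos G (.inr (.inr u))) (pos G (.inl v)) (by
        rw [pos_t, pos_t]; norm_num)] with δ hδ
      change False ↔ _
      simp [hδ]
    · filter_upwards [ev_RD G u v] with δ hδ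
      rw [hδ]
      change (u = v.2 ∧ sinc G v.1 v.2) ↔ _
      simp
    · filter_upwards [ev_same (pos G (.inr (.inr u))) (pos G (.inr (.inr v))) rfl] with δ hδ
      change u ≠ v ↔ _
      simp [hδ]
  have h2 : ∀ᶠ δ in 𝓝[>] (0 : ℝ), ∀ u v : TV V, ((tg G).Adj u v ↔
      u ≠ v ∧ dist ((pos G u).pt δ) ((pos G v).pt δ) ≤ 1) := by
    rw [eventually_all]
    intro u
    rw [eventually_all]
    exact key u
  obtain ⟨δ, hδ⟩ := h2.exists
  exact ⟨fun v => (pos G v).pt δ, hδ⟩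

end

end Pool.Agent.H676.GI.Ub
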