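import Pool.Agent.H676.GI.Ub.Ball
import Pool.Agent.H676.GI.GapHard

set_option autoImplicit false
set_option linter.unusedSimpArgs false

/-! # The reduction to unit ball graphs -/

namespace Pool.Agent.H676.GI.Ub

open Finset Pool.Agent.NPC Pool.Agent.NPC.R542 Pool.Agent.NPC.R542.GI Pool.Agent.H692R2

/-- number of pairs -/
def rr (n : ℕ) : ℕ := n * (n * 3)

/-- pairs -/
def e3 (n : ℕ) : Fin (rr n) ≃ Fin n × Fin n × Fin 3 :=
  finProdFinEquiv.symm.trans (Equiv.prodCongr (Equiv.refl _) finProdFinEquiv.symm)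

/-- the vertices -/
def ev (n : ℕ) : Fin (n + (n * rr n + rr n)) ≃ TV (Fin n) :=
  finSumFinEquiv.symm.trans (Equiv.sumCongr (Equiv.refl _) (finSumFinEquiv.symm.trans
    (Equiv.sumCongr (finProdFinEquiv.symm.trans (Equiv.prodCongr (Equiv.refl _) (e3 n))) (e3 n))))

theorem ev_L {n : ℕ} (x : Fin (n + (n * rr n + rr n))) (h : x.1 < n) :
    ev n x = .inl ⟨x.1, h⟩ := by
  unfold ev
  rw [Equiv.trans_apply, sumdec_lt x h]
  rfl

theorem D_lt {n : ℕ} {x : ℕ} (h : n ≤ x) (h' : x < n + n * rr n) :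
    (x - n) / rr n < n ∧ (x - n) % rr n < rr n := by
  have h1 : x - n < n * rr n := by omega
  have h2 : 0 < rr n := by
    rcases Nat.eq_zero_or_pos (rr n) with h | h
    · rw [h] at h1
      omega
    · exact h
  exact ⟨(Nat.div_lt_iff_lt_mul h2).2 h1, Nat.mod_lt _ h2⟩

theorem ev_D {n : ℕ} (x : Fin (n + (n * rr n + rr n))) (h : n ≤ x.1) (h' : x.1 < n + n * rr n) :
    ev n x = .inr (.inl (⟨(x.1 - n) / rr n, (D_lt h h').1⟩,
      e3 n ⟨(x.1 - n) % rr n, (D_lt h h').2⟩)) := by
  unfold ev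
  rw [Equiv.trans_apply, sumdec_ge x h]
  simp only [Equiv.sumCongr_apply, Sum.map_inr, Sum.inr.injEq]
  rw [Equiv.trans_apply, sumdec_lt _ (by simp only; omega)]
  rfl

theorem ev_Y {n : ℕ} (x : Fin (n + (n * rr n + rr n))) (h : n + n * rr n ≤ x.1) :
    ev n x = .inr (.inr (e3 n ⟨x.1 - (n + n * rr n), by have := x.2; omega⟩)) := by
  unfold ev
  rw [Equiv.trans_apply, sumdec_ge x (by omega)]
  simp only [Equiv.sumCongr_apply, Sum.map_inr, Sum.inr.injEq]
  rw [Equiv.trans_apply, sumdec_ge _ (by simp only; omega)]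
  simp only [Equiv.sumCongr_apply, Sum.map_inr, Sum.inr.injEq]
  congr 2
  omega

/-- original vertex -/
def isL (n x : ℕ) : Bool := decide (x < n)

/-- incidence -/
def isDB (n x : ℕ) : Bool := decide (n ≤ x) && decide (x < n + n * rr n)

/-- pair -/
def isY (n x : ℕ) : Bool := decide (n + n * rr n ≤ x)

/-- original vertices and incidences -/
noncomputable def ld (G : FinGraph) (x y : ℕ) : Bool :=
  (isL G.n x && isDB G.n y) && (decide (x = (y - G.n) / rr G.n) &&
    incB G ((y - G.n) / rr G.n) ((y - G.n) % rr G.n))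

/-- incidences and pairs -/
noncomputable def dy (G : FinGraph) (x y : ℕ) : Bool :=
  (isDB G.n x && isY G.n y) && (decide (y - (G.n + G.n * rr G.n) = (x - G.n) % rr G.n) &&
    incB G ((x - G.n) / rr G.n) ((x - G.n) % rr G.n))

/-- adjacency -/
noncomputable def tB (G : FinGraph) (x y : ℕ) : Bool :=
  (!decide (x = y)) && ((isL G.n x && isL G.n y) || ((isDB G.n x && isDB G.n y) ||
    ((isY G.n x && isY G.n y) || (ld G x y || (ld G y x || (dy G x y || dy G y x))))))

theorem incB_iff' (G : FinGraph) (w : ℕ) (hw : w < G.n) (q : ℕ) (hq : q < rr G.n) :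
    incB G w q = true ↔ sinc G.graph ⟨w, hw⟩ (e3 G.n ⟨q, hq⟩) :=
  incB_iff G ⟨w, hw⟩ ⟨q, hq⟩

theorem tB_symm (G : FinGraph) (x y : ℕ) : tB G x y = true ↔ tB G y x = true := by
  unfold tB
  simp only [Bool.and_eq_true, Bool.or_eq_true, Bool.not_eq_true', decide_eq_false_iff_not]
  constructor
  · rintro ⟨h1, h2⟩
    exact ⟨fun h => h1 h.symm, by tauto⟩
  · rintro ⟨h1, h2⟩
    exact ⟨fun h => h1 h.symm, by tauto⟩

theorem tB_iff (G : FinGraph) (i j : Fin (G.n + (G.n * rr G.n + rr G.n))) :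
    ((tg G.graph).comap (ev G.n)).Adj i j ↔ tB G i j = true := by
  change (tg G.graph).Adj (ev G.n i) (ev G.n j) ↔ _
  have key : ∀ i j : Fin (G.n + (G.n * rr G.n + rr G.n)), i.1 < G.n → G.n ≤ j.1 →
      ((tg G.graph).Adj (ev G.n i) (ev G.n j) ↔ tB G i j = true) := by
    intro i j hi hj
    have hne : i.1 ≠ j.1 := by omega
    rcases Nat.lt_or_ge j.1 (G.n + G.n * rr G.n) with hj' | hj'
    · rw [ev_L i hi, ev_D j hj hj']
      obtain ⟨h1, h2⟩ := D_lt hj hj'
      have e1 : ¬ G.n ≤ i.1 := by omega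
      have e2 : ¬ j.1 < G.n := by omega
      have e3 : ¬ G.n + G.n * rr G.n ≤ j.1 := by omega
      have e4 : ¬ G.n + G.n * rr G.n ≤ i.1 := by omega
      have h3 := incB_iff' G _ h1 _ h2
      simp only [tB, isL, isDB, isY, ld, dy, hne, hi, hj, hj', e1, e2, e3, e4, decide_true,
        decide_false, Bool.not_false, Bool.true_and, Bool.false_and, Bool.and_false,
        Bool.false_or, Bool.or_false, Bool.and_true, Bool.and_eq_true, decide_eq_true_eq, h3]
      change ((⟨i.1, hi⟩ : Fin G.n) = ⟨_, _⟩ ∧ _) ↔ _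
      rw [Fin.ext_iff]
    · rw [ev_L i hi, ev_Y j hj']
      have e1 : ¬ G.n ≤ i.1 := by omega
      have e2 : ¬ j.1 < G.n := by omega
      have e3 : ¬ j.1 < G.n + G.n * rr G.n := by omega
      have e4 : ¬ G.n + G.n * rr G.n ≤ i.1 := by omega
      simp only [tB, isL, isDB, isY, ld, dy, hne, hi, hj, hj', e1, e2, e3, e4, decide_true,
        decide_false, Bool.not_false, Bool.true_and, Bool.false_and, Bool.and_false,
        Bool.false_or, Bool.or_false, Bool.false_eq_true, iff_false]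
      exact fun h => h
  rcases Nat.lt_or_ge i.1 G.n with hi | hi <;> rcases Nat.lt_or_ge j.1 G.n with hj | hj
  · rw [ev_L i hi, ev_L j hj]
    have e1 : ¬ G.n ≤ i.1 := by omega
    have e2 : ¬ G.n ≤ j.1 := by omega
    simp only [tB, isL, isDB, ld, dy, hi, hj, e1, e2, decide_true,
        decide_false, Bool.true_and, Bool.false_and, Bool.and_false, Bool.and_true,
        Bool.true_or, Bool.not_eq_true', decide_eq_false_iff_not]
    change (⟨i.1, hi⟩ : Fin G.n) ≠ ⟨j.1, hj⟩ ↔ _
    rw [Ne, Fin.ext_iff]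
  · exact key i j hi hj
  · rw [SimpleGraph.adj_comm, tB_symm]
    exact key j i hj hi
  · have hi0 : ¬ i.1 < G.n := by omega
    have hj0 : ¬ j.1 < G.n := by omega
    rcases Nat.lt_or_ge i.1 (G.n + G.n * rr G.n) with hi' | hi' <;>
    rcases Nat.lt_or_ge j.1 (G.n + G.n * rr G.n) with hj' | hj'
    · have h5 : (ev G.n i ≠ ev G.n j) ↔ ¬ i.1 = j.1 := by
        rw [(ev G.n).injective.ne_iff, Ne, Fin.ext_iff]
      rw [ev_D i hi hi', ev_D j hj hj'] at h5 ⊢
      simp only [tB, isL, isDB, hi, hj, hi', hj', decide_true,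
        Bool.true_and, Bool.and_true,
        Bool.or_true, Bool.true_or, Bool.not_eq_true', decide_eq_false_iff_not]
      rw [← h5]
      constructor
      · intro h h'
        exact h (Sum.inl_injective (Sum.inr_injective h'))
      · intro h h'
        exact h (by rw [h'])
    · rw [ev_D i hi hi', ev_Y j hj']
      obtain ⟨h1, h2⟩ := D_lt hi hi'
      have hne : i.1 ≠ j.1 := by omega
      have e3 : ¬ j.1 < G.n + G.n * rr G.n := by omega
      have e4 : ¬ G.n + G.n * rr G.n ≤ i.1 := by omega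
      have h3 := incB_iff' G _ h1 _ h2
      simp only [tB, isL, isDB, isY, ld, dy, hne, hi, hj, hi', hj', hi0, hj0, e3, e4, decide_true,
        decide_false, Bool.not_false, Bool.true_and, Bool.false_and, Bool.and_false,
        Bool.false_or, Bool.or_false, Bool.and_true, Bool.and_eq_true, decide_eq_true_eq, h3]
      change (Ub.e3 G.n _ = Ub.e3 G.n _ ∧ _) ↔ _
      rw [(Ub.e3 G.n).injective.eq_iff, Fin.ext_iff]
    · rw [ev_D j hj hj', ev_Y i hi']
      obtain ⟨h1, h2⟩ := D_lt hj hj'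
      have hne : i.1 ≠ j.1 := by omega
      have e3 : ¬ i.1 < G.n + G.n * rr G.n := by omega
      have e4 : ¬ G.n + G.n * rr G.n ≤ j.1 := by omega
      have h3 := incB_iff' G _ h1 _ h2
      simp only [tB, isL, isDB, isY, ld, dy, hne, hi, hj, hi', hj', hi0, hj0, e3, e4, decide_true,
        decide_false, Bool.not_false, Bool.true_and, Bool.false_and, Bool.and_false,
        Bool.false_or, Bool.or_false, Bool.and_true, Bool.and_eq_true, decide_eq_true_eq, h3]
      change (Ub.e3 G.n _ = Ub.e3 G.n _ ∧ _) ↔ _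
      rw [(Ub.e3 G.n).injective.eq_iff, Fin.ext_iff]
    · have h5 : (ev G.n i ≠ ev G.n j) ↔ ¬ i.1 = j.1 := by
        rw [(ev G.n).injective.ne_iff, Ne, Fin.ext_iff]
      rw [ev_Y i hi', ev_Y j hj'] at h5 ⊢
      simp only [tB, isL, isDB, isY, hi0, hj0, hi', hj', decide_true,
        Bool.true_and, Bool.and_true,
        Bool.or_true, Bool.true_or, Bool.not_eq_true', decide_eq_false_iff_not]
      rw [← h5]
      constructor
      · intro h h'
        exact h (Sum.inr_injective (Sum.inr_injective h'))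
      · intro h h'
        exact h (by rw [h'])

/-- the graph -/
def tF (G : FinGraph) : FinGraph :=
  ⟨G.n + (G.n * rr G.n + rr G.n), (tg G.graph).comap (ev G.n)⟩

theorem upoly_rr {α : Type} [TEnc α] {n : α → ℕ} (hn : UPoly n) : UPoly (fun a => rr (n a)) :=
  UPoly.mul hn (UPoly.mul hn (UPoly.const 3))

theorem poly_isL {α : Type} [TEnc α] {n x : α → ℕ} (hn : Poly n) (hx : Poly x) :
    Poly (fun a => isL (n a) (x a)) := NPC.Poly.decide_lt hx hn

theorem poly_nr {α : Type} [TEnc α] {n : α → ℕ} (hn : Poly n) :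
    Poly (fun a => n a + n a * rr (n a)) :=
  NPC.Poly.add hn (NPC.Poly.mul hn (NPC.Poly.mul hn (NPC.Poly.mul hn (NPC.Poly.const 3))))

theorem poly_rr {α : Type} [TEnc α] {n : α → ℕ} (hn : Poly n) :
    Poly (fun a => rr (n a)) := NPC.Poly.mul hn (NPC.Poly.mul hn (NPC.Poly.const 3))

theorem poly_isDB {α : Type} [TEnc α] {n x : α → ℕ} (hn : Poly n) (hx : Poly x) :
    Poly (fun a => isDB (n a) (x a)) :=
  NPC.Poly.and (NPC.Poly.decide_le hn hx) (NPC.Poly.decide_lt hx (poly_nr hn))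

theorem poly_isY {α : Type} [TEnc α] {n x : α → ℕ} (hn : Poly n) (hx : Poly x) :
    Poly (fun a => isY (n a) (x a)) := NPC.Poly.decide_le (poly_nr hn) hx

theorem poly_ld {α : Type} [TEnc α] {G : α → FinGraph} {x y : α → ℕ}
    (hG : Poly G) (hx : Poly x) (hy : Poly y) : Poly (fun a => ld (G a) (x a) (y a)) := by
  have hn := poly_n hG
  have h1 := NPC.Poly.div (NPC.Poly.sub hy hn) (poly_rr hn)
  have h2 := NPC.Poly.mod (NPC.Poly.sub hy hn) (poly_rr hn)
  exact NPC.Poly.and (NPC.Poly.and (poly_isL hn hx) (poly_isDB hn hy))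
    (NPC.Poly.and (NPC.Poly.decide_eq hx h1) (poly_incB hG h1 h2))

theorem poly_dy {α : Type} [TEnc α] {G : α → FinGraph} {x y : α → ℕ}
    (hG : Poly G) (hx : Poly x) (hy : Poly y) : Poly (fun a => dy (G a) (x a) (y a)) := by
  have hn := poly_n hG
  have h1 := NPC.Poly.div (NPC.Poly.sub hx hn) (poly_rr hn)
  have h2 := NPC.Poly.mod (NPC.Poly.sub hx hn) (poly_rr hn)
  exact NPC.Poly.and (NPC.Poly.and (poly_isDB hn hx) (poly_isY hn hy))
    (NPC.Poly.and (NPC.Poly.decide_eq (NPC.Poly.sub hy (poly_nr hn)) h2) (poly_incB hG h1 h2))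

theorem poly_tB {α : Type} [TEnc α] {G : α → FinGraph} {x y : α → ℕ}
    (hG : Poly G) (hx : Poly x) (hy : Poly y) : Poly (fun a => tB (G a) (x a) (y a)) := by
  have hn := poly_n hG
  exact NPC.Poly.and (NPC.Poly.not (NPC.Poly.decide_eq hx hy))
    (NPC.Poly.or (NPC.Poly.and (poly_isL hn hx) (poly_isL hn hy))
    (NPC.Poly.or (NPC.Poly.and (poly_isDB hn hx) (poly_isDB hn hy))
    (NPC.Poly.or (NPC.Poly.and (poly_isY hn hx) (poly_isY hn hy))
    (NPC.Poly.or (poly_ld hG hx hy) (NPC.Poly.or (poly_ld hG hy hx)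
    (NPC.Poly.or (poly_dy hG hx hy) (poly_dy hG hy hx)))))))

theorem poly_tF : Poly tF := by
  have hu : UPoly (fun G : FinGraph => G.n) := upoly_n NPC.Poly.id
  have h1 : Poly (fun p : (FinGraph × ℕ) × ℕ => p.1.1) := NPC.Poly.fst (NPC.Poly.fst NPC.Poly.id)
  have h2 : Poly (fun p : (FinGraph × ℕ) × ℕ => p.1.2) := NPC.Poly.snd (NPC.Poly.fst NPC.Poly.id)
  have h3 : Poly (fun p : (FinGraph × ℕ) × ℕ => p.2) := NPC.Poly.snd NPC.Poly.id
  refine poly_finGraph (N := fun G : FinGraph => G.n + (G.n * rr G.n + rr G.n))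
    (b := fun G i j => tB G i j) (UPoly.add hu (UPoly.add (UPoly.mul hu (upoly_rr hu))
      (upoly_rr hu))) (poly_tB h1 h2 h3) ?_
  intro G i j
  exact tB_iff G i j

/-- the vertices are covered by three cliques -/
def ThreeCliques {V : Type} (G : SimpleGraph V) : Prop :=
  ∃ f : V → Fin 3, ∀ u v, u ≠ v → f u = f v → G.Adj u v

theorem three_tg {V : Type} (G : SimpleGraph V) : ThreeCliques (tg G) := by
  refine ⟨fun v => match v with
    | .inl _ => 0
    | .inr (.inl _) => 1
    | .inr (.inr _) => 2, fun u v huv h => ?_⟩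
  rcases u with u | u | u <;> rcases v with v | v | v <;> simp only [Fin.isValue] at h
  · exact fun h' => huv (by rw [h'])
  · exact absurd h (by decide)
  · exact absurd h (by decide)
  · exact absurd h (by decide)
  · exact fun h' => huv (by rw [h'])
  · exact absurd h (by decide)
  · exact absurd h (by decide)
  · exact absurd h (by decide)
  · exact fun h' => huv (by rw [h'])

theorem ThreeCliques.comap {V W : Type} {G : SimpleGraph W} (h : ThreeCliques G) (e : V ≃ W) :
    ThreeCliques (G.comap e) := by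
  obtain ⟨f, hf⟩ := h
  exact ⟨fun v => f (e v), fun u v huv h => hf _ _ (fun h' => huv (e.injective h')) h⟩

/-- the reduction -/
noncomputable def ured (p : FinGraph × FinGraph) : FinGraph × FinGraph :=
  if p.1.n = p.2.n then (tF p.1, tF p.2) else dflt 2

theorem poly_ured : Poly ured :=
  NPC.Poly.ite (NPC.Poly.decide_eq (poly_n (NPC.Poly.fst NPC.Poly.id))
      (poly_n (NPC.Poly.snd NPC.Poly.id)))
    (NPC.Poly.pair (NPC.Poly.comp poly_tF (NPC.Poly.fst NPC.Poly.id))
      (NPC.Poly.comp poly_tF (NPC.Poly.snd NPC.Poly.id))) (NPC.Poly.const _)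

theorem dflt_not_iso : ¬ Iso2 (dflt 2).1 (dflt 2).2 := by
  rintro ⟨e⟩
  have e' : (⊤ : SimpleGraph (Fin 2)) ≃g (⊥ : SimpleGraph (Fin 2)) := e
  have h : (⊤ : SimpleGraph (Fin 2)).Adj 0 1 := by simp
  have h2 := e'.map_adj_iff.2 h
  exact h2

/-- unit ball graphs in three-space covered by three cliques -/
def Ub3 (A : FinGraph) : Prop := UnitBall 3 A.graph ∧ ThreeCliques A.graph

theorem ub3_dflt : Ub3 (dflt 2).1 ∧ Ub3 (dflt 2).2 := by
  refine ⟨⟨?_, ?_⟩, ⟨?_, ?_⟩⟩
  · refine ⟨fun _ => 0, fun u v => ?_⟩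
    change u ≠ v ↔ _
    simp
  · exact ⟨fun _ => 0, fun u v h _ => h⟩
  · refine ⟨fun v => !₂[2 * (v : ℕ), 0, 0], fun u v => ?_⟩
    change False ↔ _
    rw [false_iff]
    rintro ⟨h, h'⟩
    rw [EuclideanSpace.dist_eq, Real.sqrt_le_one, Fin.sum_univ_three] at h'
    simp only [Real.dist_eq, sq_abs] at h'
    simp only [Matrix.cons_val_zero, Matrix.cons_val_one, Matrix.cons_val] at h'
    have h2 : (u : ℕ) ≠ v := fun h2 => h (Fin.ext h2)
    rcases int_sq u v with h3 | h3
    · exact h2 (Nat.cast_injective h3.2)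
    · nlinarith
  · change ThreeCliques (⊥ : SimpleGraph (Fin 2))
    refine ⟨fun v => Fin.castLE (by norm_num) v, fun u v h h' => ?_⟩
    exact absurd (Fin.castLE_injective _ h') h

theorem ured_spec (A B : FinGraph) : Ub3 (ured (A, B)).1 ∧ Ub3 (ured (A, B)).2 ∧
    (Iso2 (ured (A, B)).1 (ured (A, B)).2 ↔ Iso2 A B) := by
  by_cases hAB : A.n = B.n
  · have hg : ured (A, B) = (tF A, tF B) := if_pos hAB
    rw [hg]
    refine ⟨⟨(unitBall_tg _).comap _, (three_tg _).comap _⟩,
      ⟨(unitBall_tg _).comap _, (three_tg _).comap _⟩, ?_⟩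
    obtain ⟨n, G⟩ := A
    obtain ⟨n', H⟩ := B
    simp only at hAB
    subst hAB
    change Nonempty ((tg G).comap (ev n) ≃g (tg H).comap (ev n)) ↔ Nonempty (G ≃g H)
    refine Iff.trans ?_ tg_iso_iff
    constructor
    · rintro ⟨e⟩
      exact ⟨((SimpleGraph.Iso.comap (ev n) _).symm.trans e).trans (SimpleGraph.Iso.comap (ev n) _)⟩
    · rintro ⟨e⟩
      exact ⟨((SimpleGraph.Iso.comap (ev n) _).trans e).trans (SimpleGraph.Iso.comap (ev n) _).symm⟩
  · have hg : ured (A, B) = dflt 2 := if_neg hAB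
    rw [hg]
    refine ⟨ub3_dflt.1, ub3_dflt.2, ?_⟩
    constructor
    · intro h
      exact absurd h dflt_not_iso
    · rintro ⟨e⟩
      exfalso
      apply hAB
      have := Fintype.card_congr e.toEquiv
      simpa using this

/-- the reduction on strings -/
noncomputable def uredRaw (x : List Bool) : List Bool :=
  bits (match unbits (FinGraph × FinGraph) x with
    | none => dflt 2
    | some p => ured p)

theorem polyTime_uredRaw : PolyTime uredRaw := by
  refine polyTime_bits ?_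
  have e : Poly (fun p : List Bool × (FinGraph × FinGraph) => ured p.2) :=
    NPC.Poly.comp (g := ured) poly_ured (NPC.Poly.snd NPC.Poly.id)
  refine NPC.Poly.congr (NPC.Poly.optCases (o := fun x => unbits (FinGraph × FinGraph) x)
    (g := fun _ => dflt 2) (h := fun _ p => ured p) poly_unbits
    (NPC.Poly.const _) e) fun x => ?_
  cases unbits (FinGraph × FinGraph) x <;> rfl

theorem uredRaw_bits (p : FinGraph × FinGraph) : uredRaw (bits p) = bits (ured p) := by
  unfold uredRaw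
  rw [unbits_bits]

theorem uredRaw_none {x : List Bool} (h : unbits (FinGraph × FinGraph) x = none) :
    uredRaw x = bits (dflt 2) := by
  unfold uredRaw
  rw [h]

/-- **The two statements.** -/
theorem main : (∃ F : List Bool → List Bool, PolyTime F ∧ ∀ A B : FinGraph,
      ∃ A' B' : FinGraph, F (bits (A, B)) = bits (A', B') ∧ Ub3 A' ∧ Ub3 B' ∧
        (Iso2 A' B' ↔ Iso2 A B)) ∧
    (InPP (fun p : FinGraph × FinGraph => Iso2 p.1 p.2) ↔
      ∃ D : List Bool → List Bool, PolyTime D ∧ ∀ A B : FinGraph, Ub3 A → Ub3 B →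
        (D (bits (A, B)) = [true] ↔ Iso2 A B)) := by
  refine ⟨⟨uredRaw, polyTime_uredRaw, fun A B => ?_⟩, ?_, ?_⟩
  · exact ⟨(ured (A, B)).1, (ured (A, B)).2, uredRaw_bits _, ured_spec A B⟩
  · intro h
    obtain ⟨V, hV, hV'⟩ := h.exists_test
    exact ⟨V, hV, fun A B _ _ => (hV' (A, B)).symm⟩
  · rintro ⟨D, hD, hD'⟩
    refine ⟨fun x => D (uredRaw x), H642R2.TMSim.polyTime_comp hD polyTime_uredRaw, fun x => ?_⟩
    rw [mem_lang_iff]
    change _ ↔ D (uredRaw x) = [true]
    cases hx : unbits (FinGraph × FinGraph) x with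
    | none =>
      rw [uredRaw_none hx]
      constructor
      · rintro ⟨a, ha, _⟩
        exact absurd ha (by simp)
      · intro h
        exact absurd ((hD' _ _ ub3_dflt.1 ub3_dflt.2).1 h) dflt_not_iso
    | some p =>
      obtain ⟨A, B⟩ := p
      rw [← bits_of_unbits hx, uredRaw_bits]
      obtain ⟨h1, h2, h3⟩ := ured_spec A B
      constructor
      · rintro ⟨a, ha, hAB⟩
        cases ha
        exact (hD' _ _ h1 h2).2 (h3.2 hAB)
      · intro hd
        exact ⟨(A, B), rfl, h3.1 ((hD' _ _ h1 h2).1 hd)⟩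

end Pool.Agent.H676.GI.Ub
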