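import Pool.Agent.H676.GI.Vc
import Pool.Agent.H676.GI.Deg

set_option autoImplicit false

/-! # Three cliques for a graph -/

namespace Pool.Agent.H676.GI.Ub

open Finset

/-- vertices: original vertices, incidences, and pairs -/
abbrev TV (V : Type) : Type := V ⊕ ((V × (V × V × Fin 3)) ⊕ (V × V × Fin 3))

/-- adjacency -/
def tadj {V : Type} (G : SimpleGraph V) : TV V → TV V → Prop
  | .inl u, .inl v => u ≠ v
  | .inl u, .inr (.inl z) => u = z.1 ∧ sinc G z.1 z.2
  | .inl _, .inr (.inr _) => False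
  | .inr (.inl z), .inl u => u = z.1 ∧ sinc G z.1 z.2
  | .inr (.inl z), .inr (.inl z') => z ≠ z'
  | .inr (.inl z), .inr (.inr p) => p = z.2 ∧ sinc G z.1 z.2
  | .inr (.inr _), .inl _ => False
  | .inr (.inr p), .inr (.inl z) => p = z.2 ∧ sinc G z.1 z.2
  | .inr (.inr p), .inr (.inr q) => p ≠ q

/-- the graph -/
def tg {V : Type} (G : SimpleGraph V) : SimpleGraph (TV V) where
  Adj := tadj G
  symm := ⟨fun u v h => by
    rcases u with u | u | u <;> rcases v with v | v | v <;> simp only [tadj] at h ⊢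
    · exact h.symm
    · exact h
    · exact h
    · exact h.symm
    · exact h
    · exact h
    · exact h.symm⟩
  loopless := ⟨fun u => by rcases u with u | u | u <;> simp [tadj]⟩

theorem tg_iso {V W : Type} {G : SimpleGraph V} {H : SimpleGraph W} (e : G ≃g H) :
    Nonempty (tg G ≃g tg H) := by
  obtain ⟨e3, he3⟩ : ∃ e3 : (V × V × Fin 3) ≃ (W × W × Fin 3), e3 = Equiv.prodCongr e.toEquiv
    (Equiv.prodCongr e.toEquiv (Equiv.refl _)) := ⟨_, rfl⟩
  have h : ∀ (w : V) (p : V × V × Fin 3), sinc H (e w) (e3 p) ↔ sinc G w p := by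
    intro w p
    rw [he3]
    change sinc H (e w) (e p.1, e p.2.1, p.2.2) ↔ _
    unfold sinc
    simp only [EmbeddingLike.apply_eq_iff_eq, e.map_adj_iff]
  refine ⟨⟨Equiv.sumCongr e.toEquiv (Equiv.sumCongr (Equiv.prodCongr e.toEquiv e3) e3), ?_⟩⟩
  intro u v
  rcases u with u | u | u <;> rcases v with v | v | v
  · change e u ≠ e v ↔ u ≠ v
    simp
  · change (e u = e v.1 ∧ sinc H (e v.1) (e3 v.2)) ↔ (u = v.1 ∧ sinc G v.1 v.2)
    rw [h]
    simp
  · exact Iff.rfl
  · change (e v = e u.1 ∧ sinc H (e u.1) (e3 u.2)) ↔ (v = u.1 ∧ sinc G u.1 u.2)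
    rw [h]
    simp
  · change (e u.1, e3 u.2) ≠ (e v.1, e3 v.2) ↔ u ≠ v
    rw [Ne, Prod.mk.injEq, e.injective.eq_iff, e3.injective.eq_iff, ← Prod.ext_iff]
  · change (e3 v = e3 u.2 ∧ sinc H (e u.1) (e3 u.2)) ↔ (v = u.2 ∧ sinc G u.1 u.2)
    rw [h, e3.injective.eq_iff]
  · exact Iff.rfl
  · change (e3 u = e3 v.2 ∧ sinc H (e v.1) (e3 v.2)) ↔ (u = v.2 ∧ sinc G v.1 v.2)
    rw [h, e3.injective.eq_iff]
  · change e3 u ≠ e3 v ↔ u ≠ v
    rw [Ne, e3.injective.eq_iff]

section deg

variable {V : Type} [Fintype V] (G : SimpleGraph V)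

theorem sum_ne {α : Type} [Fintype α] (a : α) :
    (∑ b, ind (a ≠ b)) + 1 = Fintype.card α := by
  classical
  rw [sum_ind]
  have h : (univ.filter fun b => a ≠ b) = univ.erase a := by
    ext b
    simp [ne_comm]
  rw [h, card_erase_of_mem (mem_univ a), card_univ]
  have : 0 < Fintype.card α := Fintype.card_pos_iff.2 ⟨a⟩
  omega

theorem sum_eq {α : Type} [Fintype α] (a : α) : (∑ b, ind (a = b)) = 1 := by
  rw [Finset.sum_eq_single a]
  · exact ind_pos rfl
  · intro b _ hb
    exact ind_neg (Ne.symm hb)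
  · intro h
    exact absurd (mem_univ _) h

theorem ind_and_le (p q : Prop) : ind (p ∧ q) ≤ ind p := by
  by_cases hp : p
  · rw [ind_pos hp]
    unfold ind
    split_ifs <;> omega
  · rw [ind_neg (fun h => hp h.1)]
    exact Nat.zero_le _

/-- number of pairs -/
abbrev R (V : Type) [Fintype V] : ℕ := Fintype.card (V × V × Fin 3)

theorem dgr_D (z : V × (V × V × Fin 3)) :
    Fintype.card V * R V ≤ dgr (tg G) (.inr (.inl z)) + 1 := by
  unfold dgr
  rw [Fintype.sum_sum_type, Fintype.sum_sum_type]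
  change _ ≤ (∑ u, ind (u = z.1 ∧ sinc G z.1 z.2)) + ((∑ z', ind (z ≠ z')) +
    ∑ p, ind (p = z.2 ∧ sinc G z.1 z.2)) + 1
  have h := sum_ne z
  rw [Fintype.card_prod] at h
  change _ = Fintype.card V * R V at h
  omega

theorem dgr_L (u : V) : dgr (tg G) (.inl u) + 1 ≤ Fintype.card V + R V := by
  unfold dgr
  rw [Fintype.sum_sum_type, Fintype.sum_sum_type]
  change (∑ v, ind (u ≠ v)) + ((∑ z : V × (V × V × Fin 3), ind (u = z.1 ∧ sinc G z.1 z.2)) +
    ∑ _p : V × V × Fin 3, ind False) + 1 ≤ _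
  have h := sum_ne u
  have h1 : (∑ z : V × (V × V × Fin 3), ind (u = z.1 ∧ sinc G z.1 z.2)) ≤ R V := by
    rw [Fintype.sum_prod_type]
    calc ∑ x, ∑ y, ind (u = x ∧ sinc G x y) ≤ ∑ x, ∑ _y : V × V × Fin 3, ind (u = x) :=
          sum_le_sum fun x _ => sum_le_sum fun y _ => ind_and_le _ _
      _ = R V := by
          simp only [sum_const, card_univ, smul_eq_mul]
          rw [← mul_sum, sum_eq, mul_one]
  have h2 : (∑ _p : V × V × Fin 3, ind False) = 0 := by
    rw [sum_eq_zero]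
    intro _ _
    exact ind_neg not_false
  omega

theorem dgr_R (p : V × V × Fin 3) :
    dgr (tg G) (.inr (.inr p)) + 1 ≤ Fintype.card V + R V := by
  unfold dgr
  rw [Fintype.sum_sum_type, Fintype.sum_sum_type]
  change (∑ _v : V, ind False) + ((∑ z : V × (V × V × Fin 3), ind (p = z.2 ∧ sinc G z.1 z.2)) +
    ∑ q : V × V × Fin 3, ind (p ≠ q)) + 1 ≤ _
  have h : (∑ q, ind (p ≠ q)) + 1 = R V := sum_ne p
  have h1 : (∑ z : V × (V × V × Fin 3), ind (p = z.2 ∧ sinc G z.1 z.2)) ≤ Fintype.card V := by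
    rw [Fintype.sum_prod_type]
    calc ∑ x, ∑ y, ind (p = y ∧ sinc G x y) ≤ ∑ _x : V, ∑ y : V × V × Fin 3, ind (p = y) :=
          sum_le_sum fun x _ => sum_le_sum fun y _ => ind_and_le _ _
      _ = Fintype.card V := by
          rw [sum_eq]
          simp
  have h2 : (∑ _v : V, ind False) = 0 := by
    rw [sum_eq_zero]
    intro _ _
    exact ind_neg not_false
  omega

/-- incidences -/
def isD {V : Type} : TV V → Prop
  | .inl _ => False
  | .inr (.inl _) => True
  | .inr (.inr _) => False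

theorem isD_iff (h2 : 2 ≤ Fintype.card V) (v : TV V) :
    isD v ↔ Fintype.card V + R V ≤ dgr (tg G) v := by
  have hR : R V = Fintype.card V * Fintype.card V * 3 := by
    unfold R
    rw [Fintype.card_prod, Fintype.card_prod, Fintype.card_fin]
    ring
  rcases v with v | v | v
  · have := dgr_L G v
    simp only [isD, false_iff]
    omega
  · have h := dgr_D G v
    simp only [isD, true_iff]
    have : Fintype.card V + R V + 1 ≤ Fintype.card V * R V := by
      have h3 : 2 * R V ≤ Fintype.card V * R V := Nat.mul_le_mul_right _ h2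
      have h4 : 2 * Fintype.card V ≤ Fintype.card V * Fintype.card V := Nat.mul_le_mul_right _ h2
      omega
    omega
  · have := dgr_R G v
    simp only [isD, false_iff]
    omega

/-- neighbours which are no incidences -/
noncomputable def nd (v : TV V) : ℕ := ∑ w, ind (¬ isD w ∧ (tg G).Adj v w)

theorem nd_L (u : V) : nd G (.inl u) + 1 = Fintype.card V := by
  unfold nd
  rw [Fintype.sum_sum_type, Fintype.sum_sum_type]
  have h1 : (∑ v, ind (¬ isD (Sum.inl v : TV V) ∧ (tg G).Adj (.inl u) (.inl v))) =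
      ∑ v, ind (u ≠ v) := by
    refine sum_congr rfl fun v _ => ind_congr ?_
    change (¬ False ∧ u ≠ v) ↔ _
    simp
  have h2 : (∑ z, ind (¬ isD (.inr (.inl z) : TV V) ∧ (tg G).Adj (.inl u) (.inr (.inl z)))) = 0 :=
    sum_eq_zero fun z _ => ind_neg fun h => h.1 trivial
  have h3 : (∑ p, ind (¬ isD (.inr (.inr p) : TV V) ∧ (tg G).Adj (.inl u) (.inr (.inr p)))) = 0 :=
    sum_eq_zero fun z _ => ind_neg fun h => h.2
  rw [h1, h2, h3, add_zero, add_zero, sum_ne]

theorem nd_R (p : V × V × Fin 3) : nd G (.inr (.inr p)) + 1 = R V := by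
  unfold nd
  rw [Fintype.sum_sum_type, Fintype.sum_sum_type]
  have h1 : (∑ v, ind (¬ isD (Sum.inl v : TV V) ∧ (tg G).Adj (.inr (.inr p)) (.inl v))) = 0 :=
    sum_eq_zero fun z _ => ind_neg fun h => h.2
  have h2 : (∑ z, ind (¬ isD (.inr (.inl z) : TV V) ∧
      (tg G).Adj (.inr (.inr p)) (.inr (.inl z)))) = 0 :=
    sum_eq_zero fun z _ => ind_neg fun h => h.1 trivial
  have h3 : (∑ q, ind (¬ isD (.inr (.inr q) : TV V) ∧ (tg G).Adj (.inr (.inr p))
      (.inr (.inr q)))) = ∑ q, ind (p ≠ q) := by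
    refine sum_congr rfl fun q _ => ind_congr ?_
    change (¬ False ∧ p ≠ q) ↔ _
    simp
  rw [h1, h2, h3, zero_add, zero_add, sum_ne]

end deg

theorem dgr_iso {V W : Type} [Fintype V] [Fintype W] {G : SimpleGraph V} {H : SimpleGraph W}
    (φ : G ≃g H) (v : V) : dgr H (φ v) = dgr G v := by
  unfold dgr
  rw [← Equiv.sum_comp φ.toEquiv]
  exact sum_congr rfl fun w _ => ind_congr φ.map_adj_iff

theorem sinc_iff {V : Type} (G : SimpleGraph V) (u : V) (p : V × V × Fin 3) :
    sinc G u p ↔ ∃ z, isD z ∧ (tg G).Adj (.inl u) z ∧ (tg G).Adj z (.inr (.inr p)) := by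
  constructor
  · intro h
    exact ⟨.inr (.inl (u, p)), trivial, ⟨rfl, h⟩, ⟨rfl, h⟩⟩
  · rintro ⟨z, hz, h1, h2⟩
    rcases z with z | z | z
    · exact hz.elim
    · obtain ⟨e1, e2⟩ := h1
      obtain ⟨e3, e4⟩ := h2
      rw [e1, e3]
      exact e2
    · exact hz.elim

/-- **The graph is determined.** -/
theorem tg_iso_iff {V : Type} [Fintype V] {G H : SimpleGraph V} :
    Nonempty (tg G ≃g tg H) ↔ Nonempty (G ≃g H) := by
  constructor
  swap
  · rintro ⟨e⟩
    exact tg_iso e
  rintro ⟨φ⟩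
  by_cases h2 : 2 ≤ Fintype.card V
  swap
  · have h3 : Subsingleton V := by
      rw [← Fintype.card_le_one_iff_subsingleton]
      omega
    refine ⟨⟨Equiv.refl _, ?_⟩⟩
    intro a b
    rw [h3.elim a b]
    simp
  have hRV : Fintype.card V ≠ R V := by
    unfold R
    rw [Fintype.card_prod, Fintype.card_prod, Fintype.card_fin]
    nlinarith
  have key : ∀ {G H : SimpleGraph V} (φ : tg G ≃g tg H),
      (∀ v, isD (φ v) ↔ isD v) ∧ (∀ u, ∃ u', φ (.inl u) = .inl u') ∧
      ∀ p, ∃ p', φ (.inr (.inr p)) = .inr (.inr p') := by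
    intro G H φ
    have hD : ∀ v, isD (φ v) ↔ isD v := fun v => by
      rw [isD_iff H h2, isD_iff G h2, dgr_iso]
    have hnd : ∀ v, nd H (φ v) = nd G v := by
      intro v
      unfold nd
      rw [← Equiv.sum_comp φ.toEquiv]
      refine sum_congr rfl fun w _ => ind_congr ?_
      change (¬ isD (φ w) ∧ (tg H).Adj (φ v) (φ w)) ↔ _
      rw [hD, φ.map_adj_iff]
    refine ⟨hD, fun u => ?_, fun p => ?_⟩
    · have h4 := hD (.inl u)
      have h5 := hnd (.inl u)
      generalize φ (.inl u) = v at h4 h5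
      rcases v with v | v | v
      · exact ⟨v, rfl⟩
      · exact (h4.1 trivial).elim
      · have e1 := nd_L G u
        have e2 := nd_R H v
        omega
    · have h4 := hD (.inr (.inr p))
      have h5 := hnd (.inr (.inr p))
      generalize φ (.inr (.inr p)) = v at h4 h5
      rcases v with v | v | v
      · have e1 := nd_L H v
        have e2 := nd_R G p
        omega
      · exact (h4.1 trivial).elim
      · exact ⟨v, rfl⟩
  obtain ⟨hD, hf, hg⟩ := key φ
  obtain ⟨hD', hf', hg'⟩ := key φ.symm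
  choose f hf using hf
  choose g hg using hg
  choose f' hf' using hf'
  choose g' hg' using hg'
  have e1 : ∀ u, f' (f u) = u := by
    intro u
    have h := hf' (f u)
    rw [← hf u, RelIso.symm_apply_apply] at h
    exact (Sum.inl_injective h).symm
  have e2 : ∀ u, f (f' u) = u := by
    intro u
    have h := hf (f' u)
    rw [← hf' u, RelIso.apply_symm_apply] at h
    exact (Sum.inl_injective h).symm
  have e3 : ∀ u, g' (g u) = u := by
    intro u
    have h := hg' (g u)
    rw [← hg u, RelIso.symm_apply_apply] at h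
    exact (Sum.inr_injective (Sum.inr_injective h)).symm
  have e4 : ∀ u, g (g' u) = u := by
    intro u
    have h := hg (g' u)
    rw [← hg' u, RelIso.apply_symm_apply] at h
    exact (Sum.inr_injective (Sum.inr_injective h)).symm
  have hs : ∀ u p, sinc H (f u) (g p) ↔ sinc G u p := by
    intro u p
    rw [sinc_iff, sinc_iff]
    constructor
    · rintro ⟨z, h1, h2, h3⟩
      refine ⟨φ.symm z, (hD' z).2 h1, ?_, ?_⟩
      · rw [← φ.map_adj_iff, hf, RelIso.apply_symm_apply]
        exact h2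
      · rw [← φ.map_adj_iff, hg, RelIso.apply_symm_apply]
        exact h3
    · rintro ⟨z, h1, h2, h3⟩
      refine ⟨φ z, (hD z).2 h1, ?_, ?_⟩
      · rw [← hf, φ.map_adj_iff]
        exact h2
      · rw [← hg, φ.map_adj_iff]
        exact h3
  rw [← sg_iso_iff]
  refine ⟨⟨Equiv.sumCongr ⟨f, f', e1, e2⟩ ⟨g, g', e3, e4⟩, ?_⟩⟩
  intro u v
  rcases u with u | u <;> rcases v with v | v
  · exact Iff.rfl
  · exact hs u v
  · exact hs v u
  · exact Iff.rfl

end Pool.Agent.H676.GI.Ub
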